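import Mathlib

/-!
# Null vectors outside `D(M₁)` for honest Kato–Voigt semigroups

`C₀`-semigroups on `L¹(Ξ, ν)` are families `T : ℝ → (L¹ →L L¹)`, of which only the members with
`t ≥ 0` matter; generators are given by their graphs.
-/

set_option autoImplicit false

open MeasureTheory Filter Topology
open scoped ENNReal

namespace Pool.Agent.Results.MP_e4fc02_an.NullVectors

section Defs

/-- The space `L¹(ν)`. -/
abbrev L1 {Ξ : Type} [MeasurableSpace Ξ] (ν : Measure Ξ) : Type := Lp ℝ 1 ν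

/-- Families of bounded operators on `L¹(ν)` indexed by time. -/
abbrev Sg {Ξ : Type} [MeasurableSpace Ξ] (ν : Measure Ξ) : Type := ℝ → (L1 ν →L[ℝ] L1 ν)

/-- Linear operators in `L¹(ν)` with their domains. -/
abbrev Op {Ξ : Type} [MeasurableSpace Ξ] (ν : Measure Ξ) : Type := L1 ν →ₗ.[ℝ] L1 ν

variable {Ξ : Type} [MeasurableSpace Ξ] {ν : Measure Ξ}

/-- `T` (restricted to `t ≥ 0`) is a substochastic `C₀`-semigroup on `L¹(ν)`. -/
structure IsSubstochastic (T : Sg ν) : Prop where
  zero : T 0 = 1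
  add : ∀ s t : ℝ, 0 ≤ s → 0 ≤ t → T (s + t) = T s * T t
  cont : ∀ f : L1 ν, Tendsto (fun t => T t f) (𝓝[>] (0 : ℝ)) (𝓝 f)
  pos : ∀ t : ℝ, 0 ≤ t → ∀ f : L1 ν, 0 ≤ f → 0 ≤ T t f
  contr : ∀ t : ℝ, 0 ≤ t → ∀ f : L1 ν, ‖T t f‖ ≤ ‖f‖

/-- The graph of the generator of `T`. -/
def gen (T : Sg ν) : Set (L1 ν × L1 ν) :=
  {x | Tendsto (fun t : ℝ => t⁻¹ • (T t x.1 - x.1)) (𝓝[>] (0 : ℝ)) (𝓝 x.2)}

/-- The domain of the generator of `T`. -/
def dom (T : Sg ν) : Set (L1 ν) := {f | ∃ g, (f, g) ∈ gen T}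

/-- The standing assumptions: `M` is a substochastic semigroup with generator `M₁`, and `P` is a
positive linear operator with `D(M₁) ⊆ D(P)` and `∫ (M₁ φ + P φ) dν ≤ 0` for `φ ∈ D₊(M₁)`. -/
structure Setting (M : Sg ν) (P : Op ν) :
    Prop where
  sub : IsSubstochastic M
  dom_le : dom M ⊆ P.domain
  pos : ∀ f : P.domain, 0 ≤ (f : L1 ν) → 0 ≤ P f
  int_le : ∀ f g h : L1 ν, (f, g) ∈ gen M → 0 ≤ f → (f, h) ∈ P.graph →
    ∫ x, (g + h) x ∂ν ≤ 0

/-- The graph of the operator `M₁ + P` with domain `D(M₁)` (note `D(M₁) ⊆ D(P)`). -/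
def sumGraph (M : Sg ν) (P : Op ν) :
    Set (L1 ν × L1 ν) :=
  {x | ∃ g h : L1 ν, (x.1, g) ∈ gen M ∧ (x.1, h) ∈ P.graph ∧ x.2 = g + h}

/-- `J` is the Kato–Voigt semigroup: the minimal substochastic `C₀`-semigroup whose generator
extends `M₁ + P`. -/
structure IsKatoVoigt (M : Sg ν) (P : Op ν)
    (J : Sg ν) : Prop where
  sub : IsSubstochastic J
  ext : sumGraph M P ⊆ gen J
  min : ∀ K : Sg ν, IsSubstochastic K → sumGraph M P ⊆ gen K →
    ∀ t : ℝ, 0 ≤ t → ∀ f : L1 ν, 0 ≤ f → J t f ≤ K t f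

/-- `J` is honest: its generator is the closure of `M₁ + P`. -/
def Honest (M : Sg ν) (P : Op ν)
    (J : Sg ν) : Prop :=
  gen J = closure (sumGraph M P)

/-- `J` is genuinely honest: its generator is `M₁ + P` (with domain `D(M₁)`). -/
def GenuinelyHonest (M : Sg ν) (P : Op ν)
    (J : Sg ν) : Prop :=
  gen J = sumGraph M P

/-- `P (0 - M₁)⁻¹ u = w`: with `φ l = (l - M₁)⁻¹ u` and `ψ l = P (φ l)` for `l > 0`, one has
`ψ l → w` in norm as `l → 0+`. -/
def ZeroRes (M : Sg ν) (P : Op ν)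
    (u w : L1 ν) : Prop :=
  ∃ φ ψ : ℝ → L1 ν,
    (∀ l : ℝ, 0 < l → (φ l, l • φ l - u) ∈ gen M ∧ (φ l, ψ l) ∈ P.graph) ∧
    Tendsto ψ (𝓝[>] (0 : ℝ)) (𝓝 w)

end Defs

/-! ### The space `ℓ¹` as `L¹` of the counting measure on `ℕ` -/

section Ell

/-- `L¹` of the counting measure on `ℕ`. -/
abbrev E : Type := L1 (Measure.count : Measure ℕ)

lemma E.ext' {f g : E} (h : ∀ n, f n = g n) : f = g := by
  apply Lp.ext
  exact Measure.ae_count_iff.2 h

lemma E.add_apply (f g : E) (n : ℕ) : (f + g) n = f n + g n :=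
  Measure.ae_count_iff.1 (Lp.coeFn_add f g) n

lemma E.sub_apply (f g : E) (n : ℕ) : (f - g) n = f n - g n :=
  Measure.ae_count_iff.1 (Lp.coeFn_sub f g) n

lemma E.smul_apply (c : ℝ) (f : E) (n : ℕ) : (c • f) n = c * f n :=
  Measure.ae_count_iff.1 (Lp.coeFn_smul c f) n

lemma E.zero_apply (n : ℕ) : (0 : E) n = 0 :=
  Measure.ae_count_iff.1 (Lp.coeFn_zero ℝ 1 (Measure.count : Measure ℕ)) n

lemma E.le_iff {f g : E} : f ≤ g ↔ ∀ n, f n ≤ g n := by
  rw [← Lp.coeFn_le]
  exact Measure.ae_count_iff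

lemma E.nonneg_iff {f : E} : 0 ≤ f ↔ ∀ n, 0 ≤ f n := by
  rw [E.le_iff]
  simp only [E.zero_apply]

lemma E.integrable (f : E) : Integrable (fun n => f n) (Measure.count : Measure ℕ) :=
  L1.integrable_coeFn f

lemma E.summable (f : E) : Summable (fun n => f n) :=
  Summable.of_norm (integrable_count_iff.1 (E.integrable f))

lemma integrable_of_summable {h : ℕ → ℝ} (hi : Summable h) :
    Integrable h (Measure.count : Measure ℕ) :=
  integrable_count_iff.2 (summable_norm_iff.2 hi)

lemma memLp_of_summable {h : ℕ → ℝ} (hi : Summable h) :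
    MemLp h 1 (Measure.count : Measure ℕ) :=
  memLp_one_iff_integrable.2 (integrable_of_summable hi)

/-- The element of `E` given by a summable sequence. -/
noncomputable def toE (h : ℕ → ℝ) (hi : Summable h) : E :=
  (memLp_of_summable hi).toLp h

lemma toE_apply (h : ℕ → ℝ) (hi : Summable h) (n : ℕ) : toE h hi n = h n :=
  Measure.ae_count_iff.1 (MemLp.coeFn_toLp (memLp_of_summable hi)) n

lemma E.norm_eq (f : E) : ‖f‖ = ∫ n, |f n| ∂(Measure.count : Measure ℕ) := by
  rw [L1.norm_eq_integral_norm]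
  rfl

/-- Dominated convergence in `E`. -/
lemma E.tendsto_of_dominated {ι : Type} {l : Filter ι} [l.NeBot] [l.IsCountablyGenerated]
    {F : ι → E} {G : E} {b : ℕ → ℝ} (hb : Summable b)
    (h1 : ∀ᶠ t in l, ∀ n, |F t n| ≤ b n)
    (h2 : ∀ n, Tendsto (fun t => F t n) l (𝓝 (G n))) :
    Tendsto F l (𝓝 G) := by
  rw [tendsto_iff_norm_sub_tendsto_zero]
  have h0 : (fun t => ‖F t - G‖) =
      fun t => ∫ n, |F t n - G n| ∂(Measure.count : Measure ℕ) := by
    funext t
    rw [E.norm_eq]
    apply integral_congr_ae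
    refine Measure.ae_count_iff.2 fun n => ?_
    simp only [E.sub_apply]
  rw [h0]
  have hG : ∀ n, |G n| ≤ b n := by
    intro n
    refine le_of_tendsto (h2 n).abs ?_
    filter_upwards [h1] with t ht using ht n
  have h3 : Tendsto (fun t => ∫ n, |F t n - G n| ∂(Measure.count : Measure ℕ)) l
      (𝓝 (∫ _n, (0 : ℝ) ∂(Measure.count : Measure ℕ))) := by
    refine tendsto_integral_filter_of_dominated_convergence (fun n => b n + b n) ?_ ?_ ?_ ?_
    · exact Eventually.of_forall fun t => by fun_prop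
    · filter_upwards [h1] with t ht
      refine Measure.ae_count_iff.2 fun n => ?_
      rw [Real.norm_eq_abs, abs_abs]
      exact (abs_sub _ _).trans (add_le_add (ht n) (hG n))
    · exact integrable_of_summable (hb.add hb)
    · refine Measure.ae_count_iff.2 fun n => ?_
      have := ((h2 n).sub_const (G n)).abs
      simpa using this
  simpa using h3

/-- Evaluation is continuous on `E`. -/
lemma E.abs_apply_le (f : E) (n : ℕ) : |f n| ≤ ‖f‖ := by
  rw [E.norm_eq, integral_countable (E.integrable f).abs]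
  have h1 : ∀ m : ℕ, (Measure.count : Measure ℕ).real {m} • |f m| = |f m| := by
    intro m
    simp [Measure.real]
  simp only [h1]
  exact (E.summable f).abs.le_tsum n fun m _ => abs_nonneg _

lemma E.tendsto_apply {ι : Type} {F : ι → E} {G : E} {l : Filter ι} (h : Tendsto F l (𝓝 G)) (n : ℕ) :
    Tendsto (fun t => F t n) l (𝓝 (G n)) := by
  rw [tendsto_iff_norm_sub_tendsto_zero] at h ⊢
  refine squeeze_zero (fun _ => norm_nonneg _) (fun t => ?_) h
  rw [Real.norm_eq_abs, ← E.sub_apply]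
  exact E.abs_apply_le _ n

end Ell

/-! ### Substochastic semigroups: continuity and right derivatives -/

section Sg

variable {Ξ : Type} [MeasurableSpace Ξ] {ν : Measure Ξ} {K : Sg ν}

lemma IsSubstochastic.cont' (hK : IsSubstochastic K) (f : Lp ℝ 1 ν) :
    Tendsto (fun t => K t f) (𝓝[≥] (0 : ℝ)) (𝓝 f) := by
  have h1 := hK.cont f
  rw [← Set.Ioi_insert, nhdsWithin_insert]
  refine Tendsto.sup ?_ h1
  rw [tendsto_pure_left]
  intro s hs
  rw [hK.zero]
  exact mem_of_mem_nhds hs

lemma IsSubstochastic.norm_sub_le (hK : IsSubstochastic K) (f : Lp ℝ 1 ν) {s t : ℝ} (hs : 0 ≤ s)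
    (ht : 0 ≤ t) : ‖K t f - K s f‖ ≤ ‖K |t - s| f - f‖ := by
  rcases le_total s t with h | h
  · have h1 : K t f = K s (K (t - s) f) := by
      have := hK.add s (t - s) hs (sub_nonneg.2 h)
      rw [add_sub_cancel] at this
      rw [this]
      rfl
    rw [h1, ← map_sub, abs_of_nonneg (sub_nonneg.2 h)]
    exact hK.contr s hs _
  · have h1 : K s f = K t (K (s - t) f) := by
      have := hK.add t (s - t) ht (sub_nonneg.2 h)
      rw [add_sub_cancel] at this
      rw [this]
      rfl
    rw [h1, ← map_sub, abs_of_nonpos (sub_nonpos.2 h), neg_sub]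
    refine (hK.contr t ht _).trans ?_
    rw [norm_sub_rev]

lemma IsSubstochastic.continuousOn (hK : IsSubstochastic K) (f : Lp ℝ 1 ν) :
    ContinuousOn (fun t => K t f) (Set.Ici 0) := by
  intro s hs
  have hs' : (0 : ℝ) ≤ s := hs
  show Tendsto (fun t => K t f) (𝓝[Set.Ici 0] s) (𝓝 (K s f))
  rw [tendsto_iff_norm_sub_tendsto_zero]
  have h1 : Tendsto (fun t : ℝ => |t - s|) (𝓝[Set.Ici 0] s) (𝓝[≥] (0 : ℝ)) := by
    rw [tendsto_nhdsWithin_iff]
    refine ⟨?_, Eventually.of_forall fun t => Set.mem_Ici.2 (abs_nonneg _)⟩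
    have : Tendsto (fun t : ℝ => |t - s|) (𝓝 s) (𝓝 |s - s|) :=
      (continuous_id.sub continuous_const).abs.tendsto s
    rw [sub_self, abs_zero] at this
    exact this.mono_left nhdsWithin_le_nhds
  have h2 := (hK.cont' f).comp h1
  rw [tendsto_iff_norm_sub_tendsto_zero] at h2
  refine squeeze_zero' (Eventually.of_forall fun _ => norm_nonneg _) ?_ h2
  filter_upwards [self_mem_nhdsWithin] with t ht
  exact hK.norm_sub_le f hs' ht

lemma IsSubstochastic.hasDeriv (hK : IsSubstochastic K) {f h : Lp ℝ 1 ν} (hf : (f, h) ∈ gen K)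
    {t : ℝ} (ht : 0 ≤ t) : HasDerivWithinAt (fun s => K s f) (K t h) (Set.Ici t) t := by
  rw [hasDerivWithinAt_iff_tendsto_slope, Set.Ici_sdiff_left]
  have h1 : Tendsto (fun s : ℝ => s - t) (𝓝[>] t) (𝓝[>] (0 : ℝ)) := by
    rw [tendsto_nhdsWithin_iff]
    refine ⟨?_, ?_⟩
    · have : Tendsto (fun s : ℝ => s - t) (𝓝 t) (𝓝 (t - t)) :=
        (continuous_id.sub continuous_const).tendsto t
      rw [sub_self] at this
      exact this.mono_left nhdsWithin_le_nhds
    · filter_upwards [self_mem_nhdsWithin] with s hs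
      exact Set.mem_Ioi.2 (sub_pos.2 (Set.mem_Ioi.1 hs))
  have h2 : Tendsto (fun t : ℝ => t⁻¹ • (K t f - f)) (𝓝[>] (0 : ℝ)) (𝓝 h) := hf
  have h3 := ((K t).continuous.tendsto h).comp (h2.comp h1)
  refine h3.congr' ?_
  filter_upwards [self_mem_nhdsWithin] with s hs
  have hs' : t ≤ s := le_of_lt hs
  have h4 : K s f = K t (K (s - t) f) := by
    have := hK.add t (s - t) ht (sub_nonneg.2 hs')
    rw [add_sub_cancel] at this
    rw [this]
    rfl
  simp only [Function.comp_apply, slope, vsub_eq_sub]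
  rw [h4, map_smul, map_sub]

end Sg

/-! ### The example -/

section Example

/-- The rates. -/
noncomputable def a (n : ℕ) : ℝ := 2 ^ (n + 1)

/-- The null vector, as a sequence. -/
noncomputable def g0 (n : ℕ) : ℝ := (1 / 2 : ℝ) ^ (n + 1)

lemma a_pos (n : ℕ) : 0 < a n := by unfold a; positivity

lemma one_le_a (n : ℕ) : 1 ≤ a n := by unfold a; exact one_le_pow₀ (by norm_num)

lemma a_mul_g0 (n : ℕ) : a n * g0 n = 1 := by
  unfold a g0
  rw [← mul_pow]
  norm_num

lemma g0_pos (n : ℕ) : 0 < g0 n := by unfold g0; positivity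

lemma hasSum_g0 : HasSum g0 1 := by
  have h := (hasSum_geometric_of_lt_one (r := (1 / 2 : ℝ)) (by norm_num) (by norm_num)).mul_left
    (1 / 2 : ℝ)
  have h2 : (1 / 2 : ℝ) * (1 - 1 / 2)⁻¹ = 1 := by norm_num
  rw [h2] at h
  have h3 : g0 = fun i : ℕ => (1 / 2 : ℝ) * (1 / 2) ^ i := by
    funext n
    unfold g0
    rw [pow_succ]
    ring
  rw [h3]
  exact h

/-- The null vector. -/
noncomputable def g : E := toE g0 hasSum_g0.summable

lemma g_apply (n : ℕ) : g n = g0 n := toE_apply _ _ n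

/-- The integral. -/
noncomputable def I : E →L[ℝ] ℝ := L1.integralCLM

lemma I_eq (f : E) : I f = ∫ n, f n ∂(Measure.count : Measure ℕ) := by
  show L1.integralCLM f = _
  rw [← L1.integral_eq, L1.integral_eq_integral]

lemma I_eq_tsum (f : E) : I f = ∑' n, f n := by
  rw [I_eq, integral_countable (E.integrable f)]
  congr 1
  funext m
  simp [Measure.real]

lemma I_g : I g = 1 := by
  rw [I_eq_tsum]
  have : (fun n => g n) = g0 := by
    funext n
    exact g_apply n
  rw [this]
  exact hasSum_g0.tsum_eq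

lemma I_nonneg {f : E} (hf : 0 ≤ f) : 0 ≤ I f := by
  rw [I_eq_tsum]
  exact tsum_nonneg (E.nonneg_iff.1 hf)

lemma abs_I_le (f : E) : |I f| ≤ ‖f‖ := by
  rw [I_eq, E.norm_eq]
  exact abs_integral_le_integral_abs

lemma g_nonneg : 0 ≤ g := E.nonneg_iff.2 fun n => by rw [g_apply]; exact (g0_pos n).le

lemma norm_g : ‖g‖ = 1 := by
  rw [E.norm_eq, ← I_g, I_eq]
  apply integral_congr_ae
  refine Measure.ae_count_iff.2 fun n => ?_
  exact abs_of_nonneg (E.nonneg_iff.1 g_nonneg n)

/-- The bounded generator `L f = (∫ f) g - f`. -/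
noncomputable def L : E →L[ℝ] E := I.smulRight g - 1

lemma L_apply (f : E) : L f = I f • g - f := rfl

lemma L_L (f : E) : L (L f) = - L f := by
  rw [L_apply (L f)]
  have : I (L f) = 0 := by
    rw [L_apply, map_sub, map_smul, I_g]
    simp
  rw [this, zero_smul, zero_sub]

lemma I_L (f : E) : I (L f) = 0 := by
  rw [L_apply, map_sub, map_smul, I_g]
  simp

lemma norm_L_le (f : E) : ‖L f‖ ≤ 2 * ‖f‖ := by
  rw [L_apply]
  refine (norm_sub_le _ _).trans ?_
  rw [norm_smul, norm_g, mul_one, Real.norm_eq_abs]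
  linarith [abs_I_le f]

/-- The semigroup `J(t) = e^{-t} + (1 - e^{-t}) g ⊗ 1`. -/
noncomputable def J (t : ℝ) : E →L[ℝ] E := 1 + (1 - Real.exp (-t)) • L

lemma J_apply (t : ℝ) (f : E) : J t f = f + (1 - Real.exp (-t)) • L f := rfl

lemma J_apply' (t : ℝ) (f : E) :
    J t f = Real.exp (-t) • f + ((1 - Real.exp (-t)) * I f) • g := by
  rw [J_apply, L_apply, smul_sub, smul_smul, sub_smul, one_smul]
  abel

lemma J_sub : IsSubstochastic J where
  zero := by
    ext1 f
    rw [J_apply]
    simp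
  add := by
    intro s t _ _
    ext1 f
    show J (s + t) f = J s (J t f)
    rw [J_apply, J_apply s, J_apply t, map_add, map_smul, L_L]
    rw [neg_add, Real.exp_add]
    module
  cont := by
    intro f
    have h1 : Tendsto (fun t : ℝ => f + (1 - Real.exp (-t)) • L f) (𝓝 0)
        (𝓝 (f + (1 - Real.exp (-0)) • L f)) := by
      apply Continuous.tendsto
      fun_prop
    simp only [neg_zero, Real.exp_zero, sub_self, zero_smul, add_zero] at h1
    exact h1.mono_left nhdsWithin_le_nhds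
  pos := by
    intro t ht f hf
    rw [J_apply']
    have h1 : Real.exp (-t) ≤ 1 := Real.exp_le_one_iff.2 (by linarith)
    rw [E.nonneg_iff] at hf ⊢
    intro n
    rw [E.add_apply, E.smul_apply, E.smul_apply, g_apply]
    have h2 := I_nonneg (E.nonneg_iff.2 hf)
    have h3 := g0_pos n
    have h4 := hf n
    have h5 : 0 ≤ 1 - Real.exp (-t) := by linarith
    positivity
  contr := by
    intro t ht f
    rw [J_apply']
    have h1 : Real.exp (-t) ≤ 1 := Real.exp_le_one_iff.2 (by linarith)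
    refine (norm_add_le _ _).trans ?_
    rw [norm_smul, norm_smul, norm_g, mul_one, Real.norm_eq_abs, Real.norm_eq_abs, abs_mul,
      abs_of_pos (Real.exp_pos _), abs_of_nonneg (by linarith)]
    have h2 := abs_I_le f
    have h3 : (1 - Real.exp (-t)) * |I f| ≤ (1 - Real.exp (-t)) * ‖f‖ :=
      mul_le_mul_of_nonneg_left h2 (by linarith)
    linarith

lemma slope_exp (c : ℝ) :
    Tendsto (fun t : ℝ => t⁻¹ * (Real.exp (-c * t) - 1)) (𝓝[>] (0 : ℝ)) (𝓝 (-c)) := by
  have h : HasDerivAt (fun t : ℝ => Real.exp (-c * t)) (-c) 0 := by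
    have h1 : HasDerivAt (fun t : ℝ => -c * t) (-c) 0 := by
      simpa using (hasDerivAt_id (0 : ℝ)).const_mul (-c)
    have := h1.exp
    simpa using this
  have h2 := h.tendsto_slope.mono_left (nhdsWithin_mono 0
    (fun x hx => ne_of_gt hx : Set.Ioi (0 : ℝ) ⊆ {0}ᶜ))
  refine h2.congr fun t => ?_
  simp [slope, sub_zero]

lemma mem_gen_J (f : E) : (f, L f) ∈ gen J := by
  show Tendsto (fun t : ℝ => t⁻¹ • (J t f - f)) (𝓝[>] (0 : ℝ)) (𝓝 (L f))
  have h := (slope_exp 1).neg
  rw [neg_neg] at h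
  have h2 := h.smul_const (L f)
  rw [one_smul] at h2
  refine h2.congr fun t => ?_
  rw [J_apply, add_sub_cancel_left, smul_smul]
  congr 1
  rw [neg_one_mul]
  ring

lemma gen_J_iff {f h : E} : (f, h) ∈ gen J ↔ h = L f := by
  constructor
  · intro h1
    exact tendsto_nhds_unique h1 (mem_gen_J f)
  · rintro rfl
    exact mem_gen_J f

lemma mul_summable {b : ℕ → ℝ} (hb : ∀ n, |b n| ≤ 1) (f : E) : Summable fun n => b n * f n :=
  Summable.of_norm_bounded (E.summable f).abs fun n => by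
    rw [Real.norm_eq_abs, abs_mul]
    exact mul_le_of_le_one_left (abs_nonneg _) (hb n)

/-- Multiplication by a bounded sequence (as a linear map). -/
noncomputable def mulLin (b : ℕ → ℝ) (hb : ∀ n, |b n| ≤ 1) : E →ₗ[ℝ] E where
  toFun f := toE (fun n => b n * f n) (mul_summable hb f)
  map_add' := by
    intro f h
    apply E.ext'
    intro n
    rw [E.add_apply, toE_apply, toE_apply, toE_apply, E.add_apply, mul_add]
  map_smul' := by
    intro c f
    apply E.ext'
    intro n
    rw [RingHom.id_apply, E.smul_apply, toE_apply, toE_apply, E.smul_apply]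
    ring

lemma mulLin_apply (b : ℕ → ℝ) (hb : ∀ n, |b n| ≤ 1) (f : E) (n : ℕ) :
    mulLin b hb f n = b n * f n := toE_apply _ (mul_summable hb f) n

lemma mulLin_norm (b : ℕ → ℝ) (hb : ∀ n, |b n| ≤ 1) (f : E) : ‖mulLin b hb f‖ ≤ 1 * ‖f‖ := by
  rw [one_mul, E.norm_eq, E.norm_eq]
  apply integral_mono_ae
  · exact (E.integrable _).abs
  · exact (E.integrable _).abs
  · refine Measure.ae_count_iff.2 fun n => ?_
    show |mulLin b hb f n| ≤ |f n|
    rw [mulLin_apply, abs_mul]
    exact mul_le_of_le_one_left (abs_nonneg _) (hb n)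

/-- Multiplication by a bounded sequence. -/
noncomputable def mulL (b : ℕ → ℝ) (hb : ∀ n, |b n| ≤ 1) : E →L[ℝ] E :=
  (mulLin b hb).mkContinuous 1 (mulLin_norm b hb)

lemma mulL_apply (b : ℕ → ℝ) (hb : ∀ n, |b n| ≤ 1) (f : E) (n : ℕ) :
    mulL b hb f n = b n * f n := mulLin_apply b hb f n

lemma mulL_norm (b : ℕ → ℝ) (hb : ∀ n, |b n| ≤ 1) (f : E) : ‖mulL b hb f‖ ≤ ‖f‖ := by
  have := mulLin_norm b hb f
  rw [one_mul] at this
  exact this

lemma exp_le (t : ℝ) (n : ℕ) : |Real.exp (-(a n) * max t 0)| ≤ 1 := by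
  rw [abs_of_pos (Real.exp_pos _)]
  apply Real.exp_le_one_iff.2
  have h1 := a_pos n
  have h2 := le_max_right t 0
  nlinarith

/-- The absorption semigroup `M(t) f = e^{-a t} f`. -/
noncomputable def M (t : ℝ) : E →L[ℝ] E :=
  mulL (fun n => Real.exp (-(a n) * max t 0)) (exp_le t)

lemma M_apply {t : ℝ} (ht : 0 ≤ t) (f : E) (n : ℕ) : M t f n = Real.exp (-(a n) * t) * f n := by
  refine (mulL_apply (fun n => Real.exp (-(a n) * max t 0)) (exp_le t) f n).trans ?_
  show Real.exp (-(a n) * max t 0) * f n = _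
  rw [max_eq_left ht]

lemma M_sub : IsSubstochastic M where
  zero := by
    ext1 f
    apply E.ext'
    intro n
    rw [M_apply le_rfl]
    simp
  add := by
    intro s t hs ht
    ext1 f
    apply E.ext'
    intro n
    show M (s + t) f n = M s (M t f) n
    rw [M_apply (add_nonneg hs ht), M_apply hs, M_apply ht, mul_add, Real.exp_add]
    ring
  cont := by
    intro f
    refine E.tendsto_of_dominated (E.summable f).abs ?_ ?_
    · filter_upwards with t n
      have := mulL_apply (fun n => Real.exp (-(a n) * max t 0)) (exp_le t) f n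
      show |mulL (fun n => Real.exp (-(a n) * max t 0)) (exp_le t) f n| ≤ _
      rw [this, abs_mul]
      exact mul_le_of_le_one_left (abs_nonneg _) (exp_le t n)
    · intro n
      have h1 : Tendsto (fun t : ℝ => Real.exp (-(a n) * t) * f n) (𝓝 0)
          (𝓝 (Real.exp (-(a n) * 0) * f n)) := by
        apply Continuous.tendsto
        fun_prop
      rw [mul_zero, Real.exp_zero, one_mul] at h1
      refine (h1.mono_left nhdsWithin_le_nhds).congr' ?_
      filter_upwards [self_mem_nhdsWithin] with t ht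
      exact (M_apply (le_of_lt ht) f n).symm
  pos := by
    intro t ht f hf
    rw [E.nonneg_iff] at hf ⊢
    intro n
    rw [M_apply ht]
    exact mul_nonneg (Real.exp_pos _).le (hf n)
  contr := by
    intro t _ f
    exact mulL_norm _ _ f

lemma gen_M_iff {f h : E} : (f, h) ∈ gen M ↔ ∀ n, h n = -(a n) * f n := by
  have hslope : ∀ n, Tendsto (fun t : ℝ => t⁻¹ * (Real.exp (-(a n) * t) - 1) * f n)
      (𝓝[>] (0 : ℝ)) (𝓝 (-(a n) * f n)) := fun n => (slope_exp (a n)).mul_const (f n)
  have hpt : ∀ n, ∀ t : ℝ, 0 < t → (t⁻¹ • (M t f - f) : E) n =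
      t⁻¹ * (Real.exp (-(a n) * t) - 1) * f n := by
    intro n t ht
    rw [E.smul_apply, E.sub_apply, M_apply ht.le]
    ring
  constructor
  · intro h1 n
    have h2 := E.tendsto_apply h1 n
    refine tendsto_nhds_unique h2 ((hslope n).congr' ?_)
    filter_upwards [self_mem_nhdsWithin] with t ht
    exact (hpt n t ht).symm
  · intro h1
    refine E.tendsto_of_dominated (b := fun n => |h n|) (E.summable h).abs ?_ ?_
    · filter_upwards [self_mem_nhdsWithin] with t ht n
      have ht' : (0 : ℝ) < t := ht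
      rw [hpt n t ht, h1 n, abs_mul, abs_mul, abs_mul, abs_neg, abs_of_pos (a_pos n),
        abs_of_pos (inv_pos.2 ht')]
      apply mul_le_mul_of_nonneg_right _ (abs_nonneg _)
      have h3 : Real.exp (-(a n) * t) ≤ 1 := Real.exp_le_one_iff.2 (by nlinarith [a_pos n])
      have h4 : -(a n) * t + 1 ≤ Real.exp (-(a n) * t) := Real.add_one_le_exp _
      rw [abs_of_nonpos (by linarith), inv_mul_le_iff₀ ht']
      linarith
    · intro n
      rw [h1 n]
      refine (hslope n).congr' ?_
      filter_upwards [self_mem_nhdsWithin] with t ht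
      exact (hpt n t ht).symm

/-- The graph of `P f = (∫ f) g + (a - 1) f`. -/
def PG : Submodule ℝ (E × E) where
  carrier := {x | ∀ n, x.2 n = I x.1 * g0 n + (a n - 1) * x.1 n}
  add_mem' := by
    intro x y hx hy n
    show (x.2 + y.2) n = I (x.1 + y.1) * g0 n + (a n - 1) * (x.1 + y.1) n
    rw [E.add_apply, E.add_apply, map_add, hx n, hy n]
    ring
  zero_mem' := by
    intro n
    show (0 : E) n = I 0 * g0 n + (a n - 1) * (0 : E) n
    rw [E.zero_apply, map_zero]
    ring
  smul_mem' := by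
    intro c x hx n
    show (c • x.2) n = I (c • x.1) * g0 n + (a n - 1) * (c • x.1) n
    rw [E.smul_apply, E.smul_apply, map_smul, hx n, smul_eq_mul]
    ring

lemma PG_zero (x : E × E) (hx : x ∈ PG) (h : x.1 = 0) : x.2 = 0 := by
  apply E.ext'
  intro n
  rw [hx n, h, map_zero, E.zero_apply]
  ring

/-- The operator `P`. -/
noncomputable def P : E →ₗ.[ℝ] E := PG.toLinearPMap

lemma P_graph : P.graph = PG := PG.toLinearPMap_graph_eq fun x hx h => PG_zero x hx h

lemma mem_P {f h : E} : (f, h) ∈ P.graph ↔ ∀ n, h n = I f * g0 n + (a n - 1) * f n := by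
  rw [P_graph]
  rfl

lemma setting : Setting M P where
  sub := M_sub
  dom_le := by
    rintro f ⟨h, hh⟩
    rw [gen_M_iff] at hh
    show f ∈ P.domain
    rw [LinearPMap.mem_domain_iff]
    refine ⟨I f • g - h - f, mem_P.2 fun n => ?_⟩
    rw [E.sub_apply, E.sub_apply, E.smul_apply, hh n, g_apply]
    ring
  pos := by
    intro f hf
    have h1 : ((f : E), P f) ∈ P.graph := P.mem_graph f
    rw [mem_P] at h1
    rw [E.nonneg_iff]
    intro n
    rw [h1 n]
    have h2 := I_nonneg hf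
    have h3 := g0_pos n
    have h4 := one_le_a n
    have h5 := E.nonneg_iff.1 hf n
    have h6 : 0 ≤ a n - 1 := by linarith
    positivity
  int_le := by
    intro f h k h1 _ h2
    rw [gen_M_iff] at h1
    rw [mem_P] at h2
    have h3 : h + k = L f := by
      apply E.ext'
      intro n
      rw [E.add_apply, h1 n, h2 n, L_apply, E.sub_apply, E.smul_apply, g_apply]
      ring
    rw [h3, ← I_eq, I_L]

lemma sumGraph_iff {f h : E} : (f, h) ∈ sumGraph M P ↔ (f ∈ dom M ∧ h = L f) := by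
  constructor
  · rintro ⟨u, v, h1, h2, h3⟩
    refine ⟨⟨u, h1⟩, ?_⟩
    have h3' : h = u + v := h3
    rw [h3']
    have h1' : ∀ n, u n = -(a n) * f n := gen_M_iff.1 h1
    have h2' : ∀ n, v n = I f * g0 n + (a n - 1) * f n := mem_P.1 h2
    apply E.ext'
    intro n
    rw [E.add_apply, h1' n, h2' n, L_apply, E.sub_apply, E.smul_apply, g_apply]
    ring
  · rintro ⟨⟨u, h1⟩, h2⟩
    refine ⟨u, L f - u, h1, mem_P.2 fun n => ?_, ?_⟩
    · show (L f - u) n = I f * g0 n + (a n - 1) * f n
      rw [gen_M_iff] at h1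
      rw [L_apply, E.sub_apply, E.sub_apply, E.smul_apply, g_apply, h1 n]
      ring
    · show h = u + (L f - u)
      rw [h2]
      abel

/-- Truncations. -/
noncomputable def trunc (N : ℕ) (f : E) : E :=
  toE (fun n => if n < N then f n else 0) (by
    apply summable_of_hasFiniteSupport
    refine (Set.finite_lt_nat N).subset ?_
    intro n hn
    by_contra h
    apply hn
    have : ¬ n < N := h
    simp [this])

lemma trunc_apply (N : ℕ) (f : E) (n : ℕ) : trunc N f n = if n < N then f n else 0 :=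
  toE_apply _ _ n

lemma trunc_mem (N : ℕ) (f : E) : trunc N f ∈ dom M := by
  refine ⟨toE (fun n => -(a n) * (if n < N then f n else 0)) (by
    apply summable_of_hasFiniteSupport
    refine (Set.finite_lt_nat N).subset ?_
    intro n hn
    by_contra h
    apply hn
    have : ¬ n < N := h
    simp [this]), ?_⟩
  rw [gen_M_iff]
  intro n
  rw [toE_apply, trunc_apply]

lemma trunc_tendsto (f : E) : Tendsto (fun N => trunc N f) atTop (𝓝 f) := by
  refine E.tendsto_of_dominated (E.summable f).abs ?_ ?_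
  · filter_upwards with N n
    rw [trunc_apply]
    split_ifs
    · exact le_rfl
    · rw [abs_zero]; exact abs_nonneg _
  · intro n
    refine tendsto_const_nhds.congr' ?_
    filter_upwards [eventually_gt_atTop n] with N hN
    rw [trunc_apply, if_pos hN]

lemma honest : Honest M P J := by
  apply Set.Subset.antisymm
  · rintro ⟨f, h⟩ hfh
    rw [gen_J_iff] at hfh
    subst hfh
    rw [mem_closure_iff_seq_limit]
    refine ⟨fun N => (trunc N f, L (trunc N f)), fun N => sumGraph_iff.2 ⟨trunc_mem N f, rfl⟩, ?_⟩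
    exact (trunc_tendsto f).prodMk_nhds ((L.continuous.tendsto f).comp (trunc_tendsto f))
  · have hc : IsClosed (gen J) := by
      have : gen J = {x : E × E | x.2 = L x.1} := by
        ext ⟨f, h⟩
        exact gen_J_iff
      rw [this]
      exact isClosed_eq continuous_snd (L.continuous.comp continuous_fst)
    refine closure_minimal ?_ hc
    rintro ⟨f, h⟩ hfh
    rw [sumGraph_iff] at hfh
    exact gen_J_iff.2 hfh.2

lemma g_not_mem : g ∉ dom M := by
  rintro ⟨h, hh⟩
  rw [gen_M_iff] at hh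
  have h1 : ∀ n, h n = -1 := by
    intro n
    rw [hh n, g_apply, neg_mul, a_mul_g0]
  have h2 := (E.summable h).tendsto_atTop_zero
  have h3 : Tendsto (fun _ : ℕ => (-1 : ℝ)) atTop (𝓝 0) := h2.congr h1
  have h4 := tendsto_nhds_unique h3 tendsto_const_nhds
  norm_num at h4

lemma not_genuine : ¬ GenuinelyHonest M P J := by
  intro h
  have h1 : (g, L g) ∈ gen J := mem_gen_J g
  rw [h, sumGraph_iff] at h1
  exact g_not_mem h1.1

lemma no_fixed {u : E} (hu : ZeroRes M P u u) : u = 0 := by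
  obtain ⟨φ, ψ, h1, h2⟩ := hu
  have hφ : ∀ l : ℝ, 0 < l → ∀ n, (l + a n) * φ l n = u n := by
    intro l hl n
    have := gen_M_iff.1 (h1 l hl).1 n
    rw [E.sub_apply, E.smul_apply] at this
    linarith
  have hφ' : ∀ n, Tendsto (fun l => φ l n) (𝓝[>] (0 : ℝ)) (𝓝 (u n / a n)) := by
    intro n
    have h3 : Tendsto (fun l : ℝ => u n / (l + a n)) (𝓝 0) (𝓝 (u n / (0 + a n))) := by
      apply ContinuousAt.tendsto
      have : (0 : ℝ) + a n ≠ 0 := by rw [zero_add]; exact (a_pos n).ne'
      fun_prop (disch := exact this)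
    rw [zero_add] at h3
    refine (h3.mono_left nhdsWithin_le_nhds).congr' ?_
    filter_upwards [self_mem_nhdsWithin] with l hl
    have hl' : (0 : ℝ) < l := hl
    have := hφ l hl' n
    have h4 : l + a n ≠ 0 := by linarith [a_pos n]
    rw [← this]
    field_simp
  have hI : ∀ n, Tendsto (fun l => I (φ l)) (𝓝[>] (0 : ℝ)) (𝓝 (u n)) := by
    intro n
    have h3 := E.tendsto_apply h2 n
    have h4 := (h3.sub ((hφ' n).const_mul (a n - 1))).mul_const (a n)
    have h5 : (u n - (a n - 1) * (u n / a n)) * a n = u n := by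
      have := (a_pos n).ne'
      field_simp
      ring
    rw [h5] at h4
    refine h4.congr' ?_
    filter_upwards [self_mem_nhdsWithin] with l hl
    have h6 := mem_P.1 (h1 l hl).2 n
    rw [h6]
    have h7 := a_mul_g0 n
    linear_combination (I (φ l)) * h7
  have hc : ∀ n, u n = u 0 := fun n => tendsto_nhds_unique (hI n) (hI 0)
  have h2 := (E.summable u).tendsto_atTop_zero
  have h3 : Tendsto (fun _ : ℕ => u 0) atTop (𝓝 0) := h2.congr hc
  have h4 := tendsto_nhds_unique tendsto_const_nhds h3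
  apply E.ext'
  intro n
  rw [hc n, h4, E.zero_apply]

lemma inv_le (l : ℝ) (n : ℕ) : |(max l 0 + a n)⁻¹| ≤ 1 := by
  have h1 := one_le_a n
  have h2 := le_max_right l 0
  rw [abs_of_nonneg (by positivity)]
  exact inv_le_one_of_one_le₀ (by linarith)

/-- The resolvent `(l - M₁)⁻¹` for `l ≥ 0`. -/
noncomputable def Res (l : ℝ) : E →L[ℝ] E := mulL (fun n => (max l 0 + a n)⁻¹) (inv_le l)

lemma Res_apply {l : ℝ} (hl : 0 ≤ l) (u : E) (n : ℕ) : Res l u n = (l + a n)⁻¹ * u n := by
  refine (mulL_apply (fun n => (max l 0 + a n)⁻¹) (inv_le l) u n).trans ?_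
  show (max l 0 + a n)⁻¹ * u n = _
  rw [max_eq_left hl]

/-- The strong limit `P (0 - M₁)⁻¹` exists. -/
lemma exists_zeroRes (u : E) : ∃ w, ZeroRes M P u w := by
  have hlim : Tendsto (fun l => Res l u) (𝓝[>] (0 : ℝ)) (𝓝 (Res 0 u)) := by
    refine E.tendsto_of_dominated (E.summable u).abs ?_ ?_
    · filter_upwards with l n
      have := mulL_apply (fun n => (max l 0 + a n)⁻¹) (inv_le l) u n
      show |mulL (fun n => (max l 0 + a n)⁻¹) (inv_le l) u n| ≤ _
      rw [this, abs_mul]
      exact mul_le_of_le_one_left (abs_nonneg _) (inv_le l n)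
    · intro n
      rw [Res_apply le_rfl]
      have h3 : Tendsto (fun l : ℝ => (l + a n)⁻¹ * u n) (𝓝 0) (𝓝 ((0 + a n)⁻¹ * u n)) := by
        apply ContinuousAt.tendsto
        have : (0 : ℝ) + a n ≠ 0 := by rw [zero_add]; exact (a_pos n).ne'
        fun_prop (disch := exact this)
      refine (h3.mono_left nhdsWithin_le_nhds).congr' ?_
      filter_upwards [self_mem_nhdsWithin] with l hl
      exact (Res_apply (le_of_lt hl) u n).symm
  refine ⟨I (Res 0 u) • g + (u - (0 : ℝ) • Res 0 u - Res 0 u), fun l => Res l u,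
    fun l => I (Res l u) • g + (u - l • Res l u - Res l u), ?_, ?_⟩
  · intro l hl
    have h0 : ∀ n, (l + a n) * Res l u n = u n := by
      intro n
      rw [Res_apply hl.le]
      have : l + a n ≠ 0 := by linarith [a_pos n]
      field_simp
    constructor
    · rw [gen_M_iff]
      intro n
      rw [E.sub_apply, E.smul_apply]
      linarith [h0 n]
    · rw [mem_P]
      intro n
      rw [E.add_apply, E.sub_apply, E.sub_apply, E.smul_apply, E.smul_apply, g_apply]
      linarith [h0 n]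
  · have hid : Tendsto (fun l : ℝ => l) (𝓝[>] (0 : ℝ)) (𝓝 0) :=
      tendsto_id.mono_left nhdsWithin_le_nhds
    exact ((((I.continuous.tendsto _).comp hlim).smul_const g)).add
      ((tendsto_const_nhds.sub (hid.smul hlim)).sub hlim)

/-! ### Uniqueness of the semigroup -/

lemma step1 {K : ℝ → (E →L[ℝ] E)} (hK : IsSubstochastic K) (hG : sumGraph M P ⊆ gen K) {ψ : E}
    (hψ : I ψ = 0) {T : ℝ} (hT : 0 ≤ T) : Real.exp T • K T ψ = ψ := by
  have key : ∀ N, ‖Real.exp T • K T (trunc N ψ) - trunc N ψ‖ ≤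
      (Real.exp T * |I (trunc N ψ)|) * (T - 0) := by
    intro N
    set q := trunc N ψ with hq
    have hgen : (q, L q) ∈ gen K := hG (sumGraph_iff.2 ⟨trunc_mem N ψ, rfl⟩)
    have hcont : ContinuousOn (fun s => Real.exp s • K s q) (Set.Icc 0 T) :=
      (Real.continuous_exp.continuousOn).smul
        ((hK.continuousOn q).mono fun x hx => hx.1)
    have hder : ∀ s ∈ Set.Ico (0 : ℝ) T, HasDerivWithinAt (fun s => Real.exp s • K s q)
        (Real.exp s • K s (L q) + Real.exp s • K s q) (Set.Ici s) s := by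
      intro s hs
      exact ((Real.hasDerivAt_exp s).hasDerivWithinAt).smul (hK.hasDeriv hgen hs.1)
    have hb : ∀ s ∈ Set.Ico (0 : ℝ) T, ‖Real.exp s • K s (L q) + Real.exp s • K s q‖ ≤
        Real.exp T * |I q| := by
      intro s hs
      rw [← smul_add, ← map_add, L_apply, sub_add_cancel, norm_smul, Real.norm_eq_abs,
        abs_of_pos (Real.exp_pos s)]
      have h1 : ‖K s (I q • g)‖ ≤ |I q| := by
        refine (hK.contr s hs.1 _).trans ?_
        rw [norm_smul, norm_g, mul_one, Real.norm_eq_abs]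
      exact mul_le_mul (Real.exp_le_exp.2 hs.2.le) h1 (norm_nonneg _) (Real.exp_pos T).le
    have h := norm_image_sub_le_of_norm_deriv_right_le_segment hcont hder hb T
      (Set.right_mem_Icc.2 hT)
    simp only [Real.exp_zero, one_smul, hK.zero] at h
    exact h
  have l1 : Tendsto (fun N => ‖Real.exp T • K T (trunc N ψ) - trunc N ψ‖) atTop
      (𝓝 ‖Real.exp T • K T ψ - ψ‖) :=
    (((((K T).continuous.tendsto ψ).comp (trunc_tendsto ψ)).const_smul _).sub
      (trunc_tendsto ψ)).norm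
  have l2 : Tendsto (fun N => (Real.exp T * |I (trunc N ψ)|) * (T - 0)) atTop
      (𝓝 ((Real.exp T * |I ψ|) * (T - 0))) :=
    (((((I.continuous.tendsto ψ).comp (trunc_tendsto ψ)).abs).const_mul _).mul_const _)
  have := le_of_tendsto_of_tendsto' l1 l2 key
  rw [hψ, abs_zero, mul_zero, zero_mul] at this
  exact sub_eq_zero.1 (norm_le_zero_iff.1 this)

lemma step1' {K : ℝ → (E →L[ℝ] E)} (hK : IsSubstochastic K) (hG : sumGraph M P ⊆ gen K) {ψ : E}
    (hψ : I ψ = 0) {T : ℝ} (hT : 0 ≤ T) : K T ψ = Real.exp (-T) • ψ := by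
  have h := step1 hK hG hψ hT
  rw [← h, smul_smul, ← Real.exp_add, neg_add_cancel, Real.exp_zero, one_smul, h]

lemma step2 {K : ℝ → (E →L[ℝ] E)} (hK : IsSubstochastic K) (hG : sumGraph M P ⊆ gen K) {f : E}
    (hf : f ∈ dom M) {T : ℝ} (hT : 0 ≤ T) : K T f = J T f := by
  have hgen : (f, L f) ∈ gen K := hG (sumGraph_iff.2 ⟨hf, rfl⟩)
  have hcont : ContinuousOn (fun s => K s f - (1 - Real.exp (-s)) • L f) (Set.Icc 0 T) := by
    apply ContinuousOn.sub ((hK.continuousOn f).mono fun x hx => hx.1)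
    fun_prop
  have hder : ∀ s ∈ Set.Ico (0 : ℝ) T,
      HasDerivWithinAt (fun s => K s f - (1 - Real.exp (-s)) • L f) 0 (Set.Ici s) s := by
    intro s hs
    have h1 : HasDerivAt (fun s : ℝ => 1 - Real.exp (-s)) (Real.exp (-s)) s := by
      have := ((hasDerivAt_neg s).exp).const_sub 1
      simpa using this
    have h2 := (hK.hasDeriv hgen hs.1).sub (h1.smul_const (L f)).hasDerivWithinAt
    rw [step1' hK hG (I_L f) hs.1, sub_self] at h2
    exact h2
  have h := constant_of_has_deriv_right_zero hcont hder T (Set.right_mem_Icc.2 hT)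
  simp only [neg_zero, Real.exp_zero, sub_self, zero_smul, sub_zero, hK.zero] at h
  rw [J_apply]
  have h' : K T f - (1 - Real.exp (-T)) • L f = f := h
  rw [sub_eq_iff_eq_add] at h'
  exact h'

lemma uniq {K : ℝ → (E →L[ℝ] E)} (hK : IsSubstochastic K) (hG : sumGraph M P ⊆ gen K) (f : E)
    {T : ℝ} (hT : 0 ≤ T) : K T f = J T f := by
  have l1 := ((K T).continuous.tendsto f).comp (trunc_tendsto f)
  have l2 := ((J T).continuous.tendsto f).comp (trunc_tendsto f)
  refine tendsto_nhds_unique l1 (l2.congr fun N => ?_)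
  exact (step2 hK hG (trunc_mem N f) hT).symm

lemma katoVoigt : IsKatoVoigt M P J where
  sub := J_sub
  ext := by
    rintro ⟨f, h⟩ hfh
    rw [sumGraph_iff] at hfh
    exact gen_J_iff.2 hfh.2
  min := by
    intro K hK hG t ht f _
    rw [uniq hK hG f ht]

end Example

/-- The hypotheses of Q1: `J` is the Kato–Voigt semigroup of `(M₁, P)`, it is honest but not
genuinely honest, and `J₁ v = 0` for some nonzero `v ∈ D₊(J₁)` with `v ∉ D(M₁)`. -/
structure Hyp {Ξ : Type} [MeasurableSpace Ξ] {ν : Measure Ξ} (M J : Sg ν) (P : Op ν) : Prop where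
  setting : Setting M P
  katoVoigt : IsKatoVoigt M P J
  honest : Honest M P J
  notGen : ¬ GenuinelyHonest M P J
  null : ∃ v : L1 ν, 0 ≤ v ∧ v ≠ 0 ∧ (v, 0) ∈ gen J ∧ v ∉ dom M

/-- The statement of Q1: under `Hyp`, `1` is an eigenvalue of `P (0 - M₁)⁻¹` with an eigenvector
`u ≥ 0`. -/
def Q1 : Prop :=
  ∀ (Ξ : Type) (_ : MeasurableSpace Ξ) (ν : Measure Ξ) (M J : Sg ν) (P : Op ν),
    Hyp M J P → ∃ u : L1 ν, 0 ≤ u ∧ u ≠ 0 ∧ ZeroRes M P u u

/-- Q1 has a negative answer: on `ℓ¹` (the `L¹`-space of the counting measure on `ℕ`) there are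
`M₁`, `P` as in the setting whose Kato–Voigt semigroup `J` exists, is honest but not genuinely
honest, has a nonzero `v ∈ D₊(J₁)` outside `D(M₁)` with `J₁ v = 0`, and such that
`P (0 - M₁)⁻¹ u` exists for every `u ∈ L¹` but equals `u` only for `u = 0`. -/
theorem result :
    (∃ (M J : Sg (Measure.count : Measure ℕ)) (P : Op (Measure.count : Measure ℕ)), Hyp M J P ∧
      (∀ u, ∃ w, ZeroRes M P u w) ∧ ∀ u, ZeroRes M P u u → u = 0) ∧ ¬ Q1 := by
  have hv : ∃ v : E, 0 ≤ v ∧ v ≠ 0 ∧ (v, 0) ∈ gen J ∧ v ∉ dom M := by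
    refine ⟨g, g_nonneg, ?_, ?_, g_not_mem⟩
    · intro h
      have := norm_g
      rw [h, norm_zero] at this
      exact zero_ne_one this
    · rw [gen_J_iff, L_apply, I_g, one_smul, sub_self]
  have hH : Hyp M J P := ⟨setting, katoVoigt, honest, not_genuine, hv⟩
  refine ⟨⟨M, J, P, hH, exists_zeroRes, fun u hu => no_fixed hu⟩, ?_⟩
  intro hQ
  obtain ⟨u, _, hu, hu'⟩ := hQ ℕ inferInstance Measure.count M J P hH
  exact hu (no_fixed hu')

end Pool.Agent.Results.MP_e4fc02_an.NullVectors
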